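import Pool.Agent.Y979.HM.Stm

/-!
# Project HM: the expectation of the tile sum
-/

set_option autoImplicit false

open MeasureTheory UpperHalfPlane Filter ProbabilityTheory Pool.Agent.Y979.HV Pool.Agent.Y979.HM
open scoped ENNReal Topology

namespace Pool.Agent.Y367.HM

universe u

noncomputable section

theorem tile_sub (p : ℤ × ℤ) : tile p ⊆ Metric.closedBall (ctr p) 3 := by
  intro z hz
  obtain ⟨h1, h2, h3, h4⟩ := hz
  have hx : (0 : ℝ) < 2 ^ p.1 := by positivity
  have h5 : (2 : ℝ) ^ (p.1 + 1) = 2 * 2 ^ p.1 := by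
    rw [zpow_add₀ (by norm_num), zpow_one]
    ring
  rw [h5] at h4
  rw [Metric.mem_closedBall, UpperHalfPlane.dist_le_iff_le_sinh]
  have hc1 : (ctr p).re = ((p.2 : ℝ) + 1 / 2) * 2 ^ p.1 := rfl
  have hc2 : (ctr p).im = 3 / 2 * 2 ^ p.1 := rfl
  have h6 : (3 : ℝ) / 2 ≤ Real.sinh (3 / 2) := Real.self_le_sinh_iff.mpr (by norm_num)
  refine le_trans ?_ h6
  have hs : (2 : ℝ) ^ p.1 ≤ √(z.im * (ctr p).im) := by
    apply Real.le_sqrt_of_sq_le
    rw [hc2]
    nlinarith
  have hs0 : 0 < √(z.im * (ctr p).im) := hx.trans_le hs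
  rw [div_le_iff₀ (by positivity)]
  have h7 : dist (z : ℂ) (ctr p) ≤ |z.re - (ctr p).re| + |z.im - (ctr p).im| := by
    rw [Complex.dist_eq]
    refine (Complex.norm_le_abs_re_add_abs_im _).trans (le_of_eq ?_)
    simp
  have h8 : |z.re - (ctr p).re| ≤ 1 / 2 * 2 ^ p.1 := by
    rw [hc1, abs_le]
    constructor <;> nlinarith
  have h9 : |z.im - (ctr p).im| ≤ 1 / 2 * 2 ^ p.1 := by
    rw [hc2, abs_le]
    constructor <;> nlinarith
  nlinarith

/-- the indicator of count zero -/
def ph (n : ℕ∞) : ℝ≥0∞ := if n = 0 then 1 else 0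

/-- the function of the count -/
def ps (n : ℕ∞) : ℝ≥0∞ := (n : ℝ≥0∞) * (32 + (n : ℝ≥0∞))

theorem ps_mono {n m : ℕ∞} (h : n ≤ m) : ps n ≤ ps m := by
  unfold ps
  have : (n : ℝ≥0∞) ≤ (m : ℝ≥0∞) := by exact_mod_cast h
  gcongr

/-- the number of points in an empty ball's complement bounds the term of the tile sum -/
theorem term_le (A Z : Set ℍ) (p : ℤ × ℤ) (L : ℕ) (T : Finset (ℤ × ℤ))
    (hT : ∀ p' : ℤ × ℤ, dist (ctr p) (ctr p') ≤ L + 3 → p' ∈ T) (c : ℝ≥0∞) :
    (open Classical in if Bad Z p L A then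
      c * (((A ∩ (tile p ∩ Z)).encard : ℕ∞) : ℝ≥0∞) *
        (32 + (((A ∩ (Z ∩ Metric.closedBall (ctr p) (2 * L + 3))).encard : ℕ∞) : ℝ≥0∞))
    else 0) ≤ ∑ p' ∈ T, c * (ph (A ∩ Metric.ball (ctr p') (L - 6)).encard *
      ps (A ∩ (Metric.closedBall (ctr p) (2 * L + 3) \ Metric.ball (ctr p') (L - 6))).encard) := by
  split_ifs with hb
  · obtain ⟨p', h1, h2, h3⟩ := hb
    have hmem := hT p' h1
    have h4 := Finset.single_le_sum
      (f := fun p' => c * (ph (A ∩ Metric.ball (ctr p') (L - 6)).encard *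
      ps (A ∩ (Metric.closedBall (ctr p) (2 * L + 3) \ Metric.ball (ctr p') (L - 6))).encard))
      (fun _ _ => zero_le) hmem
    refine le_trans ?_ h4
    rw [h3]
    have h5 : ph (∅ : Set ℍ).encard = 1 := by
      unfold ph
      rw [Set.encard_empty, if_pos rfl]
    rw [h5, one_mul, mul_assoc]
    apply mul_le_mul_right
    unfold ps
    have hsub : ∀ S : Set ℍ, S ⊆ Metric.closedBall (ctr p) (2 * L + 3) →
        (A ∩ S).encard ≤
          (A ∩ (Metric.closedBall (ctr p) (2 * L + 3) \ Metric.ball (ctr p') (L - 6))).encard := by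
      intro S hS
      apply Set.encard_le_encard
      rintro x ⟨hxA, hxS⟩
      refine ⟨hxA, hS hxS, fun hx => ?_⟩
      have : x ∈ A ∩ Metric.ball (ctr p') (L - 6) := ⟨hxA, hx⟩
      rw [h3] at this
      exact this
    have hL : (0 : ℝ) ≤ L := Nat.cast_nonneg L
    have e1 := hsub (tile p ∩ Z) (Set.inter_subset_left.trans
      ((tile_sub p).trans (Metric.closedBall_subset_closedBall (by linarith))))
    have e2 := hsub (Z ∩ Metric.closedBall (ctr p) (2 * L + 3)) Set.inter_subset_right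
    have e1' : (((A ∩ (tile p ∩ Z)).encard : ℕ∞) : ℝ≥0∞) ≤ (((A ∩ (Metric.closedBall (ctr p)
      (2 * L + 3) \ Metric.ball (ctr p') (L - 6))).encard : ℕ∞) : ℝ≥0∞) := by exact_mod_cast e1
    have e2' : (((A ∩ (Z ∩ Metric.closedBall (ctr p) (2 * L + 3))).encard : ℕ∞) : ℝ≥0∞) ≤
      (((A ∩ (Metric.closedBall (ctr p)
      (2 * L + 3) \ Metric.ball (ctr p') (L - 6))).encard : ℕ∞) : ℝ≥0∞) := by exact_mod_cast e2
    gcongr
  · exact zero_le

/-- the integral of one product -/
theorem lint_prod {Ω : Type u} [MeasurableSpace Ω] (P : Measure Ω) [IsProbabilityMeasure P]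
    {lam : ℝ} (hlam : 0 < lam) (Q : Ω → Set ℍ) (hQ : IsPoissonProcess P lam Q) {T B : Set ℍ}
    (hT : MeasurableSet T) (hB : MeasurableSet B) (hvT : volume T ≠ ⊤) (hvB : volume B ≠ ⊤)
    (hd : Disjoint T B) :
    ∫⁻ ω, ph (Q ω ∩ T).encard * ps (Q ω ∩ B).encard ∂P =
      ENNReal.ofReal (Real.exp (-(lam * (volume T).toReal))) *
        ENNReal.ofReal ((lam * (volume B).toReal) ^ 2 + 33 * (lam * (volume B).toReal)) := by
  have hind := (hQ.indep_two hT hB hd).comp (φ := ph) (ψ := ps)
    (measurable_of_countable _) (measurable_of_countable _)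
  have h1 := lintegral_mul_eq_lintegral_mul_lintegral_of_indepFun
    ((measurable_of_countable ph).comp (hQ.measurable_count T hT))
    ((measurable_of_countable ps).comp (hQ.measurable_count B hB)) hind
  have h2 : ∫⁻ ω, ph (Q ω ∩ T).encard * ps (Q ω ∩ B).encard ∂P =
      (∫⁻ ω, ph (Q ω ∩ T).encard ∂P) * ∫⁻ ω, ps (Q ω ∩ B).encard ∂P := h1
  rw [h2]
  congr 1
  · rw [hQ.lintegral_count hlam.le hT hvT ph, tsum_eq_single 0]
    · simp [ph]
    · intro k hk
      have : ph (k : ℕ∞) = 0 := by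
        unfold ph
        rw [if_neg]
        exact_mod_cast hk
      rw [this, zero_mul]
  · have hμ0 : 0 ≤ lam * (volume B).toReal := by positivity
    set μ := lam * (volume B).toReal with hμ
    rw [hQ.lintegral_count hlam.le hB hvB ps]
    have hs : HasSum (fun k : ℕ => ((k : ℝ) ^ 2 + 32 * k) *
        (Real.exp (-μ) * μ ^ k / (k.factorial : ℝ))) (μ ^ 2 + 33 * μ) := by
      have h3 := (hasSum_sq μ).add ((hasSum_one μ).mul_left 32)
      have h4 : μ ^ 2 + μ + 32 * μ = μ ^ 2 + 33 * μ := by ring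
      rw [h4] at h3
      refine h3.congr_fun fun k => ?_
      ring
    rw [← hs.tsum_eq, ENNReal.ofReal_tsum_of_nonneg (fun k => by positivity) hs.summable]
    refine tsum_congr fun k => ?_
    rw [ENNReal.ofReal_mul (by positivity)]
    congr 1
    unfold ps
    rw [ENNReal.ofReal_add (by positivity) (by positivity), ENNReal.ofReal_mul (by norm_num),
      ENNReal.ofReal_pow (by positivity)]
    simp only [ENNReal.ofReal_natCast, ENat.toENNReal_coe, ENNReal.ofReal_ofNat]
    ring

/-- the constants -/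
def cL (lam : ℝ) (L : ℕ) : ℝ :=
  Real.exp (4 * L) * (4 * Real.exp (2 * (L + 4))) *
    (Real.exp (lam - lam * (Real.exp ((L - 6) / 2) / 2)) *
      ((lam * (2 * Real.exp (4 * L + 6))) ^ 2 + 33 * (lam * (2 * Real.exp (4 * L + 6)))))

theorem cL_nonneg {lam : ℝ} (hlam : 0 < lam) (L : ℕ) : 0 ≤ cL lam L := by
  unfold cL
  positivity

theorem cL_summable {lam : ℝ} (hlam : 0 < lam) : Summable (cL lam) := by
  set K : ℝ := 4 * Real.exp 8 * (4 * lam ^ 2 * Real.exp 12 + 66 * lam * Real.exp 6) *
    (Real.exp lam * ((30).factorial : ℝ) / (lam / 2) ^ 30 * Real.exp 90) with hK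
  refine Summable.of_nonneg_of_le (cL_nonneg hlam) (fun L => ?_)
    ((Real.summable_exp_neg_nat).mul_left K)
  have h1 : Real.exp (lam - lam * (Real.exp (((L : ℝ) - 6) / 2) / 2)) ≤
      Real.exp lam * ((30).factorial : ℝ) / (lam / 2) ^ 30 * Real.exp 90 *
        Real.exp (-(15 * L)) := by
    set y : ℝ := lam / 2 * Real.exp (((L : ℝ) - 6) / 2) with hy
    have hy0 : 0 < y := by positivity
    have h2 := Real.pow_div_factorial_le_exp (x := y) hy0.le 30
    have h3 : lam - lam * (Real.exp (((L : ℝ) - 6) / 2) / 2) = lam - y := by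
      rw [hy]
      ring
    have h4 : y ^ 30 = (lam / 2) ^ 30 * Real.exp (15 * L - 90) := by
      rw [hy, mul_pow, ← Real.exp_nat_mul]
      congr 2
      push_cast
      ring
    have h5 : (0 : ℝ) < ((30).factorial : ℝ) := by positivity
    rw [h3, Real.exp_sub, div_le_iff₀ (Real.exp_pos _)]
    have h6 : Real.exp lam * ((30).factorial : ℝ) / (lam / 2) ^ 30 * Real.exp 90 *
        Real.exp (-(15 * L)) * Real.exp y =
        Real.exp lam * (((30).factorial : ℝ) / y ^ 30 * Real.exp y) := by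
      have h7 : Real.exp (15 * (L : ℝ) - 90) * (Real.exp 90 * Real.exp (-(15 * L))) = 1 := by
        rw [← Real.exp_add, ← Real.exp_add]
        ring_nf
        exact Real.exp_zero
      have h8 : Real.exp 90 * Real.exp (-(15 * (L : ℝ))) = 1 / Real.exp (15 * (L : ℝ) - 90) := by
        rw [eq_div_iff (Real.exp_pos _).ne']
        linarith
      rw [h4, mul_assoc (Real.exp lam * _ / _), h8]
      field_simp
    rw [h6]
    have h9 : 1 ≤ ((30).factorial : ℝ) / y ^ 30 * Real.exp y := by
      rw [div_le_iff₀ h5] at h2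
      rw [div_mul_eq_mul_div, le_div_iff₀ (by positivity), one_mul]
      linarith
    have := mul_le_mul_of_nonneg_left h9 (Real.exp_pos lam).le
    linarith
  have h10 : (lam * (2 * Real.exp (4 * (L : ℝ) + 6))) ^ 2 +
      33 * (lam * (2 * Real.exp (4 * (L : ℝ) + 6))) ≤
      (4 * lam ^ 2 * Real.exp 12 + 66 * lam * Real.exp 6) * Real.exp (8 * L) := by
    have e1 : Real.exp (4 * (L : ℝ) + 6) = Real.exp (4 * L) * Real.exp 6 := Real.exp_add _ _
    have e2 : Real.exp 12 = Real.exp 6 ^ 2 := by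
      rw [← Real.exp_nat_mul]
      norm_num
    have e3 : Real.exp (8 * (L : ℝ)) = Real.exp (4 * L) ^ 2 := by
      rw [← Real.exp_nat_mul]
      congr 1
      push_cast
      ring
    have e4 : (1 : ℝ) ≤ Real.exp (4 * L) := Real.one_le_exp (by positivity)
    have e5 : Real.exp (4 * (L : ℝ)) ≤ Real.exp (4 * L) ^ 2 := by nlinarith
    rw [e1, e2, e3]
    have e6 : 0 < 66 * lam * Real.exp 6 := by positivity
    nlinarith [mul_le_mul_of_nonneg_left e5 e6.le]
  unfold cL
  calc Real.exp (4 * L) * (4 * Real.exp (2 * (L + 4))) *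
    (Real.exp (lam - lam * (Real.exp ((L - 6) / 2) / 2)) *
      ((lam * (2 * Real.exp (4 * L + 6))) ^ 2 + 33 * (lam * (2 * Real.exp (4 * L + 6)))))
      ≤ Real.exp (4 * L) * (4 * Real.exp (2 * (L + 4))) *
        ((Real.exp lam * ((30).factorial : ℝ) / (lam / 2) ^ 30 * Real.exp 90 *
        Real.exp (-(15 * L))) * ((4 * lam ^ 2 * Real.exp 12 + 66 * lam * Real.exp 6) *
          Real.exp (8 * L))) := by
        apply mul_le_mul_of_nonneg_left _ (by positivity)
        exact mul_le_mul h1 h10 (by positivity) (by positivity)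
    _ = K * Real.exp (-L) := by
        rw [hK]
        have e1 : Real.exp (2 * ((L : ℝ) + 4)) = Real.exp (2 * L) * Real.exp 8 := by
          rw [← Real.exp_add]
          congr 1
          ring
        have e2 : Real.exp (-(L : ℝ)) = Real.exp (4 * L) * Real.exp (2 * L) *
            Real.exp (-(15 * L)) * Real.exp (8 * L) := by
          rw [← Real.exp_add, ← Real.exp_add, ← Real.exp_add]
          congr 1
          ring
        rw [e1, e2]
        ring

/-- the bound of the integral of one term -/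
theorem int_term (htv : S_TV) {Ω : Type u} [MeasurableSpace Ω] (P : Measure Ω)
    [IsProbabilityMeasure P] {lam : ℝ} (hlam : 0 < lam) (Q : Ω → Set ℍ)
    (hQ : IsPoissonProcess P lam Q) (p p' : ℤ × ℤ) (L : ℕ) :
    ∫⁻ ω, ph (Q ω ∩ Metric.ball (ctr p') (L - 6)).encard *
      ps (Q ω ∩ (Metric.closedBall (ctr p) (2 * L + 3) \
        Metric.ball (ctr p') (L - 6))).encard ∂P ≤
    ENNReal.ofReal (Real.exp (lam - lam * (Real.exp (((L : ℝ) - 6) / 2) / 2)) *
      ((lam * (2 * Real.exp (4 * L + 6))) ^ 2 + 33 * (lam * (2 * Real.exp (4 * L + 6))))) := by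
  obtain ⟨h1, h2, _⟩ := htv
  have hL : (0 : ℝ) ≤ L := Nat.cast_nonneg L
  have hvc : volume (Metric.closedBall (ctr p) (2 * (L : ℝ) + 3)) ≤
      ENNReal.ofReal (2 * Real.exp (4 * L + 6)) := by
    refine (h1 _ _ (by positivity)).trans (le_of_eq ?_)
    congr 3
    ring
  have hvB : volume (Metric.closedBall (ctr p) (2 * (L : ℝ) + 3) \
      Metric.ball (ctr p') ((L : ℝ) - 6)) ≤ ENNReal.ofReal (2 * Real.exp (4 * L + 6)) :=
    (measure_mono Set.sdiff_subset).trans hvc
  have hvT : volume (Metric.ball (ctr p') ((L : ℝ) - 6)) ≠ ⊤ := by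
    refine ne_top_of_le_ne_top ENNReal.ofReal_ne_top ((measure_mono ?_).trans
      (h1 (ctr p') (L : ℝ) hL))
    exact Metric.ball_subset_closedBall.trans (Metric.closedBall_subset_closedBall (by linarith))
  rw [lint_prod P hlam Q hQ Metric.isOpen_ball.measurableSet
    (Metric.isClosed_closedBall.measurableSet.diff Metric.isOpen_ball.measurableSet) hvT
    (ne_top_of_le_ne_top ENNReal.ofReal_ne_top hvB) Set.disjoint_sdiff_right,
    ENNReal.ofReal_mul (Real.exp_pos _).le]
  have hvB' : (volume (Metric.closedBall (ctr p) (2 * (L : ℝ) + 3) \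
      Metric.ball (ctr p') ((L : ℝ) - 6))).toReal ≤ 2 * Real.exp (4 * L + 6) :=
    ENNReal.toReal_le_of_le_ofReal (by positivity) hvB
  refine mul_le_mul' (ENNReal.ofReal_le_ofReal ?_) (ENNReal.ofReal_le_ofReal ?_)
  · rw [Real.exp_le_exp]
    rcases lt_or_ge L 8 with h | h
    · have h3 : (L : ℝ) ≤ 7 := by
        have : L ≤ 7 := by omega
        exact_mod_cast this
      have h4 : Real.exp (((L : ℝ) - 6) / 2) ≤ Real.exp (1 / 2) := by
        rw [Real.exp_le_exp]
        linarith
      have h5 : Real.exp (1 / 2) ≤ 2 := by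
        have h6 : Real.exp (1 / 2) ^ 2 = Real.exp 1 := by
          rw [← Real.exp_nat_mul]
          norm_num
        have h7 := Real.exp_one_lt_d9
        have h8 := Real.exp_pos (1 / 2)
        nlinarith
      have h9 : lam * (Real.exp (((L : ℝ) - 6) / 2) / 2) ≤ lam * 1 :=
        mul_le_mul_of_nonneg_left (by linarith) hlam.le
      have h10 : 0 ≤ lam * (volume (Metric.ball (ctr p') ((L : ℝ) - 6))).toReal := by positivity
      linarith
    · have h3 : (2 : ℝ) ≤ L - 6 := by
        have : (8 : ℝ) ≤ L := by exact_mod_cast h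
        linarith
      have h4 := h2 (ctr p') ((L : ℝ) - 6) h3
      have h5 : Real.exp (((L : ℝ) - 6) / 2) / 2 ≤
          (volume (Metric.ball (ctr p') ((L : ℝ) - 6))).toReal := by
        rwa [ENNReal.ofReal_le_iff_le_toReal hvT] at h4
      have h6 := mul_le_mul_of_nonneg_left h5 hlam.le
      linarith
  · have h3 : lam * (volume (Metric.closedBall (ctr p) (2 * (L : ℝ) + 3) \
      Metric.ball (ctr p') ((L : ℝ) - 6))).toReal ≤ lam * (2 * Real.exp (4 * L + 6)) :=
      mul_le_mul_of_nonneg_left hvB' hlam.le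
    have h4 : 0 ≤ lam * (volume (Metric.closedBall (ctr p) (2 * (L : ℝ) + 3) \
      Metric.ball (ctr p') ((L : ℝ) - 6))).toReal := by positivity
    gcongr

/-- the expectation of the tile sum -/
theorem te (htv : S_TV) : S_TE.{u} := by
  intro lam hlam
  refine ⟨∑' L : ℕ, ENNReal.ofReal (cL lam L), ?_, ?_⟩
  · exact (cL_summable hlam).tsum_ofReal_lt_top
  intro Ω _ P _ Q hQ Z K hZ
  have hfin : ∀ (p : ℤ × ℤ) (L : ℕ),
      {p' : ℤ × ℤ | dist (ctr p) (ctr p') ≤ (L : ℝ) + 3}.Finite := fun p L =>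
    (htv.2.2 p ((L : ℝ) + 3) (by positivity)).1
  have hcard : ∀ (p : ℤ × ℤ) (L : ℕ),
      (((hfin p L).toFinset.card : ℕ) : ℝ) ≤ 4 * Real.exp (2 * (L + 4)) := by
    intro p L
    have h := (htv.2.2 p ((L : ℝ) + 3) (by positivity)).2
    rw [Set.ncard_eq_toFinset_card _ (hfin p L)] at h
    refine h.trans (le_of_eq ?_)
    congr 2
    ring
  have hmeas : ∀ (p p' : ℤ × ℤ) (L : ℕ), Measurable (fun ω =>
      ph (Q ω ∩ Metric.ball (ctr p') (L - 6)).encard *
      ps (Q ω ∩ (Metric.closedBall (ctr p) (2 * L + 3) \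
        Metric.ball (ctr p') (L - 6))).encard) := by
    intro p p' L
    exact ((measurable_of_countable ph).comp (hQ.measurable_count _
      Metric.isOpen_ball.measurableSet)).mul ((measurable_of_countable ps).comp
      (hQ.measurable_count _
        (Metric.isClosed_closedBall.measurableSet.diff Metric.isOpen_ball.measurableSet)))
  calc ∫⁻ ω, Psi Z K (Q ω) ∂P
      ≤ ∫⁻ ω, ∑' p : K, ∑' L : ℕ, ∑ p' ∈ (hfin p L).toFinset,
        ENNReal.ofReal ((4 : ℝ) ^ p.1.1 * Real.exp (4 * L)) *
        (ph (Q ω ∩ Metric.ball (ctr p') (L - 6)).encard *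
          ps (Q ω ∩ (Metric.closedBall (ctr p) (2 * L + 3) \
            Metric.ball (ctr p') (L - 6))).encard) ∂P := by
        apply lintegral_mono
        intro ω
        unfold Psi
        refine ENNReal.tsum_le_tsum fun p => ENNReal.tsum_le_tsum fun L => ?_
        exact term_le (Q ω) Z p L (hfin p L).toFinset
          (fun p' hp' => by rw [Set.Finite.mem_toFinset]; exact hp') _
    _ = ∑' p : K, ∑' L : ℕ, ∑ p' ∈ (hfin p L).toFinset,
        ENNReal.ofReal ((4 : ℝ) ^ p.1.1 * Real.exp (4 * L)) *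
        ∫⁻ ω, (ph (Q ω ∩ Metric.ball (ctr p') (L - 6)).encard *
          ps (Q ω ∩ (Metric.closedBall (ctr p) (2 * L + 3) \
            Metric.ball (ctr p') (L - 6))).encard) ∂P := by
        rw [lintegral_tsum]
        · refine tsum_congr fun p => ?_
          rw [lintegral_tsum]
          · refine tsum_congr fun L => ?_
            rw [lintegral_finsetSum _ (fun p' _ => (hmeas p p' L).const_mul _)]
            refine Finset.sum_congr rfl fun p' _ => ?_
            rw [lintegral_const_mul _ (hmeas p p' L)]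
          · intro L
            exact (Finset.measurable_sum _ fun p' _ => (hmeas p p' L).const_mul _).aemeasurable
        · intro p
          exact (Measurable.ennreal_tsum fun L =>
            Finset.measurable_sum _ fun p' _ => (hmeas p p' L).const_mul _).aemeasurable
    _ ≤ ∑' p : K, ∑' L : ℕ, ENNReal.ofReal ((4 : ℝ) ^ p.1.1) * ENNReal.ofReal (cL lam L) := by
        refine ENNReal.tsum_le_tsum fun p => ENNReal.tsum_le_tsum fun L => ?_
        refine (Finset.sum_le_sum fun p' _ => mul_le_mul_right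
          (int_term htv P hlam Q hQ p p' L) _).trans ?_
        rw [Finset.sum_const, nsmul_eq_mul]
        have h4 : (((hfin p L).toFinset.card : ℕ) : ℝ≥0∞) ≤
            ENNReal.ofReal (4 * Real.exp (2 * (L + 4))) := by
          rw [← ENNReal.ofReal_natCast]
          exact ENNReal.ofReal_le_ofReal (hcard p L)
        refine (mul_le_mul_left h4 _).trans (le_of_eq ?_)
        rw [← ENNReal.ofReal_mul (by positivity), ← ENNReal.ofReal_mul (by positivity),
          ← ENNReal.ofReal_mul (by positivity)]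
        congr 1
        unfold cL
        ring
    _ = (∑' L : ℕ, ENNReal.ofReal (cL lam L)) * ∑' p : K, ENNReal.ofReal ((4 : ℝ) ^ p.1.1) := by
        simp_rw [ENNReal.tsum_mul_left]
        rw [ENNReal.tsum_mul_right, mul_comm]

end

end Pool.Agent.Y367.HM
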